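import Pool.Agent.Helper87_NAL.Blk

/-! NA, row HAA: the Haar system (helper87). -/

set_option autoImplicit false

open Finset

noncomputable section

namespace Pool.Agent.NA.H87

/-- the level of the `j`-th Haar function -/
def kp (j : ℕ) : ℕ := Nat.log 2 (j + 1)

/-- the position of the `j`-th Haar function -/
def rp (j : ℕ) : ℕ := j + 1 - 2 ^ kp j

/-- the `j`-th Haar function -/
def hr (k j l : ℕ) : ℝ :=
  if l / 2 ^ (k - kp j) = rp j then (if l / 2 ^ (k - kp j - 1) % 2 = 0 then 1 else -1) else 0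

theorem kp_lt {k j : ℕ} (hj : j < 2 ^ k - 1) : kp j < k := by
  unfold kp
  have h0 : 0 < 2 ^ k := by positivity
  exact Nat.log_lt_of_lt_pow (by omega) (by omega)

theorem rp_lt (j : ℕ) : rp j < 2 ^ kp j := by
  unfold rp kp
  have h := lt_pow_log j
  rw [pow_succ] at h
  have := pow_log_le j
  omega

/-- the sum over the halves of a block -/
theorem hr_sum0 (k j : ℕ) (hj : kp j < k) (q : ℕ) :
    ∑ t ∈ range (2 ^ (k - kp j)), hr k j (q * 2 ^ (k - kp j) + t) = 0 := by
  have hp : (2 : ℕ) ^ (k - kp j) = 2 * 2 ^ (k - kp j - 1) := by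
    rw [← pow_succ']
    congr 1
    omega
  have hpos : 0 < 2 ^ (k - kp j - 1) := by positivity
  have hpos' : 0 < 2 ^ (k - kp j) := by positivity
  by_cases hq : q = rp j
  · have h1 : ∀ t ∈ range (2 ^ (k - kp j)), hr k j (q * 2 ^ (k - kp j) + t) =
        (fun j : ℕ => if j % 2 = 0 then (1 : ℝ) else -1) (t / 2 ^ (k - kp j - 1) % 2) := by
      intro t ht
      rw [mem_range] at ht
      unfold hr
      have h2 : (q * 2 ^ (k - kp j) + t) / 2 ^ (k - kp j) = rp j := by
        rw [mul_comm, Nat.mul_add_div hpos', Nat.div_eq_of_lt ht, add_zero, hq]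
      have h3 : (q * 2 ^ (k - kp j) + t) / 2 ^ (k - kp j - 1) % 2 =
          t / 2 ^ (k - kp j - 1) % 2 := by
        have h4 : q * 2 ^ (k - kp j) + t = 2 ^ (k - kp j - 1) * (2 * q) + t := by
          rw [hp]; ring
        rw [h4, Nat.mul_add_div hpos, Nat.mul_add_mod]
      rw [if_pos h2, h3]
      simp
    rw [Finset.sum_congr rfl h1, hp]
    have h5 := sum_coord 1 2 (2 ^ (k - kp j - 1)) hpos
      (fun j : ℕ => if j % 2 = 0 then (1 : ℝ) else -1)
    rw [one_mul] at h5
    rw [h5]
    simp [Finset.sum_range_succ]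
  · refine Finset.sum_eq_zero fun t ht => ?_
    rw [mem_range] at ht
    unfold hr
    rw [if_neg]
    rw [mul_comm, Nat.mul_add_div hpos', Nat.div_eq_of_lt ht, add_zero]
    exact hq

theorem hr_sum (k j κ : ℕ) (hj : kp j < k) (hκ : κ ≤ kp j) (c : ℕ) :
    ∑ t ∈ range (2 ^ (k - κ)), hr k j (c * 2 ^ (k - κ) + t) = 0 := by
  have hp : (2 : ℕ) ^ (k - κ) = 2 ^ (kp j - κ) * 2 ^ (k - kp j) := by
    rw [← pow_add]
    congr 1
    omega
  rw [hp, sum_mul]
  refine Finset.sum_eq_zero fun i _ => ?_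
  have h := hr_sum0 k j hj (c * 2 ^ (kp j - κ) + i)
  rw [← h]
  refine Finset.sum_congr rfl fun t _ => ?_
  congr 1
  ring

/-- the Haar function is constant on the blocks of the next level -/
theorem hr_const (k j κ l t : ℕ) (hκ : kp j + 1 ≤ κ) (hκk : κ ≤ k) (ht : t < 2 ^ (k - κ)) :
    hr k j (l / 2 ^ (k - κ) * 2 ^ (k - κ) + t) = hr k j l := by
  unfold hr
  rw [div_blk (p := k - κ) (p' := k - kp j) (by omega) ht,
    div_blk (p := k - κ) (p' := k - kp j - 1) (by omega) ht]

theorem Qv_hr {k i j l : ℕ} (hi : i ≤ 2 ^ k - 1) (hj : j < 2 ^ k - 1) (hl : l < 2 ^ k) :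
    Qv k i (hr k j) l = if j < i then hr k j l else 0 := by
  rw [Qv_eq hl]
  have hlk := lam_le (k := k) (i := i) (l := l) hi
  have hle := le_lam k i l
  have hle' := lam_le' k i l
  have hkj := kp_lt hj
  have e1 := pow_log_le i
  have e2 := lt_pow_log i
  have e3 := pow_log_le j
  have e4 := lt_pow_log j
  split_ifs with hji
  · -- `h j` is constant on the block
    have h1 : kp j ≤ Nat.log 2 (i + 1) := Nat.log_mono_right (by omega)
    rcases Nat.lt_or_ge (kp j) (Nat.log 2 (i + 1)) with h2 | h2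
    · exact Av_const _ _ _ _ _ fun t ht => hr_const k j _ l t (by omega) hlk ht
    · have h3 : kp j = Nat.log 2 (i + 1) := le_antisymm h1 h2
      by_cases h4 : lam k i l = Nat.log 2 (i + 1) + 1
      · exact Av_const _ _ _ _ _ fun t ht => hr_const k j _ l t (by omega) hlk ht
      · have h5 : lam k i l = kp j := by omega
        have h6 : ¬ l / 2 ^ (k - kp j) < i + 1 - 2 ^ kp j := by
          intro h
          apply h4
          unfold lam
          rw [← h3, if_pos h]
        have h7 : rp j < i + 1 - 2 ^ kp j := by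
          unfold rp
          have : 2 ^ kp j ≤ j + 1 := e3
          omega
        have h8 : l / 2 ^ (k - kp j) ≠ rp j := by omega
        have h9 : hr k j l = 0 := by
          unfold hr
          rw [if_neg h8]
        rw [h9, h5]
        refine Av_const _ _ _ _ _ fun t ht => ?_
        unfold hr
        rw [if_neg]
        rw [div_blk le_rfl ht]
        exact h8
  · -- the sum over the block is zero
    have h1 : Nat.log 2 (i + 1) ≤ kp j := Nat.log_mono_right (by omega)
    by_cases h2 : lam k i l ≤ kp j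
    · exact Av_zero _ _ _ _ (hr_sum k j _ hkj h2 _)
    · have h3 : kp j = Nat.log 2 (i + 1) := by omega
      have h4 : lam k i l = kp j + 1 := by omega
      have h5 : l / 2 ^ (k - kp j) < i + 1 - 2 ^ kp j := by
        by_contra h
        have : lam k i l = Nat.log 2 (i + 1) := by
          unfold lam
          rw [← h3, if_neg h]
        omega
      have h7 : i + 1 - 2 ^ kp j ≤ rp j := by
        unfold rp
        omega
      have h8 : l / 2 ^ (k - kp j) ≠ rp j := by omega
      refine Av_const _ _ _ _ _ fun t ht => ?_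
      unfold hr
      rw [if_neg]
      rw [div_blk (p := k - lam k i l) (p' := k - kp j) (by omega) ht]
      exact h8

/-- the average of the values in the dyadic interval with the number `c` of length `2 ^ p` -/
def ab (p c : ℕ) (a : ℕ → ℝ) : ℝ := ((2 : ℝ) ^ p)⁻¹ * ∑ t ∈ range (2 ^ p), a (c * 2 ^ p + t)

theorem Av_ab (k κ l : ℕ) (a : ℕ → ℝ) : Av k κ a l = ab (k - κ) (l / 2 ^ (k - κ)) a := rfl

theorem ab_succ (p c : ℕ) (a : ℕ → ℝ) :
    ab (p + 1) c a = (ab p (2 * c) a + ab p (2 * c + 1) a) / 2 := by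
  unfold ab
  have h1 : (2 : ℕ) ^ (p + 1) = 2 ^ p + 2 ^ p := by ring
  have h2 : ∑ t ∈ range (2 ^ (p + 1)), a (c * 2 ^ (p + 1) + t) =
      ∑ t ∈ range (2 ^ p), a (2 * c * 2 ^ p + t) +
        ∑ t ∈ range (2 ^ p), a ((2 * c + 1) * 2 ^ p + t) := by
    rw [h1, Finset.sum_range_add]
    congr 1
    · refine Finset.sum_congr rfl fun t _ => ?_
      congr 1
      ring
    · refine Finset.sum_congr rfl fun t _ => ?_
      congr 1
      ring
  rw [h2, pow_succ]
  have h3 : (2 : ℝ) ^ p ≠ 0 := by positivity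
  field_simp

theorem lam_succ {k i l : ℕ} (hi : i < 2 ^ k - 1) (hl : l < 2 ^ k) :
    lam k (i + 1) l = if l / 2 ^ (k - kp i) ≤ rp i then kp i + 1 else kp i := by
  have e1 := pow_log_le i
  have e2 := lt_pow_log i
  have hk := kp_lt hi
  change 2 ^ kp i ≤ i + 1 at e1
  change i + 1 < 2 ^ (kp i + 1) at e2
  rcases Nat.lt_or_ge (i + 1 + 1) (2 ^ (kp i + 1)) with h | h
  · have h1 : Nat.log 2 (i + 1 + 1) = kp i := by
      apply le_antisymm
      · exact Nat.lt_succ_iff.1 (Nat.log_lt_of_lt_pow (by omega) h)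
      · exact Nat.log_mono_right (by omega)
    unfold lam
    rw [h1]
    have h2 : (l / 2 ^ (k - kp i) < i + 1 + 1 - 2 ^ kp i) ↔ (l / 2 ^ (k - kp i) ≤ rp i) := by
      unfold rp
      omega
    simp only [h2]
  · have h0 : i + 1 + 1 = 2 ^ (kp i + 1) := by omega
    have h1 : Nat.log 2 (i + 1 + 1) = kp i + 1 := by
      rw [h0]
      exact Nat.log_pow (by norm_num) _
    unfold lam
    have h4 : i + 1 + 1 - 2 ^ (kp i + 1) = 0 := by omega
    rw [h1, if_neg (by rw [h4]; exact Nat.not_lt_zero _), if_pos]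
    have h2 : l / 2 ^ (k - kp i) < 2 ^ kp i := by
      rw [Nat.div_lt_iff_lt_mul (by positivity), ← pow_add]
      have : kp i + (k - kp i) = k := by omega
      rw [this]
      exact hl
    unfold rp
    have h3 : 2 ^ (kp i + 1) = 2 ^ kp i + 2 ^ kp i := by ring
    omega

theorem step {k i l : ℕ} (hi : i < 2 ^ k - 1) (hl : l < 2 ^ k) (a : ℕ → ℝ) :
    Qv k (i + 1) a l - Qv k i a l =
      ((ab (k - kp i - 1) (2 * rp i) a - ab (k - kp i - 1) (2 * rp i + 1) a) / 2) * hr k i l := by
  rw [Qv_eq hl, Qv_eq hl, lam_succ hi hl]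
  have hk := kp_lt hi
  have h0 : lam k i l = if l / 2 ^ (k - kp i) < rp i then kp i + 1 else kp i := rfl
  rw [h0]
  rcases lt_trichotomy (l / 2 ^ (k - kp i)) (rp i) with h | h | h
  · rw [if_pos h.le, if_pos h, sub_self]
    unfold hr
    rw [if_neg h.ne, mul_zero]
  · rw [if_pos h.le, if_neg (by omega), Av_ab, Av_ab, h]
    have h1 : k - kp i = (k - kp i - 1) + 1 := by omega
    have h2 : k - (kp i + 1) = k - kp i - 1 := by omega
    rw [h2]
    have h3 : ab (k - kp i) (rp i) a = ab (k - kp i - 1 + 1) (rp i) a := by rw [← h1]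
    rw [h3, ab_succ]
    unfold hr
    rw [if_pos h]
    have h4 : l / 2 ^ (k - kp i - 1) / 2 = rp i := by
      rw [Nat.div_div_eq_div_mul, ← pow_succ, ← h1]
      exact h
    rcases Nat.mod_two_eq_zero_or_one (l / 2 ^ (k - kp i - 1)) with h5 | h5
    · have h6 : l / 2 ^ (k - kp i - 1) = 2 * rp i := by omega
      rw [if_pos h5, h6]
      ring
    · have h6 : l / 2 ^ (k - kp i - 1) = 2 * rp i + 1 := by omega
      rw [if_neg (by omega), h6]
      ring
  · rw [if_neg (by omega), if_neg (by omega), sub_self]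
    unfold hr
    rw [if_neg (by omega), mul_zero]

theorem Qv_zero {k l : ℕ} (hl : l < 2 ^ k) (a : ℕ → ℝ) (ha : ∑ t ∈ range (2 ^ k), a t = 0) :
    Qv k 0 a l = 0 := by
  rw [Qv_eq hl]
  have h0 : lam k 0 l = 0 := by
    unfold lam
    simp
  rw [h0]
  refine Av_zero _ _ _ _ ?_
  rw [Nat.sub_zero, Nat.div_eq_of_lt hl]
  simpa using ha

theorem Qv_last {k l : ℕ} (hl : l < 2 ^ k) (a : ℕ → ℝ) : Qv k (2 ^ k - 1) a l = a l := by
  rw [Qv_eq hl]
  have hpos : 0 < 2 ^ k := by positivity
  have h1 : Nat.log 2 (2 ^ k - 1 + 1) = k := by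
    rw [Nat.sub_add_cancel hpos]
    exact Nat.log_pow (by norm_num) k
  have h0 : lam k (2 ^ k - 1) l = k := by
    have h4 : 2 ^ k - 1 + 1 - 2 ^ k = 0 := by omega
    unfold lam
    rw [h1, if_neg (by rw [h4]; exact Nat.not_lt_zero _)]
  rw [h0]
  refine Av_const _ _ _ _ _ fun t ht => ?_
  have : t = 0 := by simpa using ht
  subst this
  simp

theorem haa : HaaStmt := by
  intro k
  have hpos : 0 < 2 ^ k := by positivity
  refine ⟨hr k, ?_, ?_, ?_⟩
  · intro a ha
    refine ⟨fun i => (ab (k - kp i - 1) (2 * rp i) a - ab (k - kp i - 1) (2 * rp i + 1) a) / 2, ?_⟩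
    intro l hl
    have h1 : ∑ i ∈ range (2 ^ k - 1), (Qv k (i + 1) a l - Qv k i a l) =
        Qv k (2 ^ k - 1) a l - Qv k 0 a l := Finset.sum_range_sub (fun i => Qv k i a l) _
    rw [Qv_zero hl a ha, Qv_last hl, sub_zero] at h1
    rw [← h1]
    exact Finset.sum_congr rfl fun i hi => step (mem_range.1 hi) hl a
  · intro j hj
    have hk := kp_lt hj
    constructor
    · have h := hr_sum k j 0 hk (Nat.zero_le _) 0
      simpa using h
    · refine ⟨rp j * 2 ^ (k - kp j), ?_, ?_⟩
      · calc rp j * 2 ^ (k - kp j) < 2 ^ kp j * 2 ^ (k - kp j) :=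
              Nat.mul_lt_mul_of_pos_right (rp_lt j) (by positivity)
          _ = 2 ^ k := by rw [← pow_add, Nat.add_sub_cancel' hk.le]
      · unfold hr
        rw [Nat.mul_div_cancel _ (by positivity), if_pos rfl]
        split_ifs <;> norm_num
  · intro β i hi l hl
    have h1 : Qv k i (fun l' => ∑ j ∈ range (2 ^ k - 1), β j * hr k j l') l =
        ∑ j ∈ range (2 ^ k - 1), β j * Qv k i (hr k j) l := by
      unfold Qv
      rw [Finset.sum_comm, Finset.smul_sum]
      refine Finset.sum_congr rfl fun j _ => ?_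
      rw [← Finset.mul_sum, smul_eq_mul, smul_eq_mul]
      ring
    rw [h1]
    have h2 : ∀ j ∈ range (2 ^ k - 1), β j * Qv k i (hr k j) l =
        if j < i then β j * hr k j l else 0 := by
      intro j hj
      rw [Qv_hr hi (mem_range.1 hj) hl]
      split_ifs <;> simp
    rw [Finset.sum_congr rfl h2, ← Finset.sum_filter]
    refine Finset.sum_congr ?_ fun _ _ => rfl
    ext j
    simp only [mem_filter, mem_range]
    omega

end Pool.Agent.NA.H87
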