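import Pool.Agent.NA.Stmts

/-! NA, row IXL: sums over a coordinate (helper87). -/

set_option autoImplicit false

open Finset

noncomputable section

namespace Pool.Agent.NA.H87

theorem sum_mul {V : Type} [AddCommGroup V] (N B : ℕ) (ψ : ℕ → V) :
    ∑ l ∈ range (N * B), ψ l = ∑ i ∈ range N, ∑ j ∈ range B, ψ (i * B + j) := by
  induction N with
  | zero => simp
  | succ N ih =>
    rw [Nat.succ_mul, Finset.sum_range_add, ih, Finset.sum_range_succ]

theorem sum_coord {V : Type} [AddCommGroup V] [Module ℝ V] (A C B : ℕ) (hB : 0 < B)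
    (φ : ℕ → V) :
    ∑ l ∈ range (A * C * B), φ (l / B % C) = ((A : ℝ) * B) • ∑ j ∈ range C, φ j := by
  rw [sum_mul]
  have h1 : ∀ i ∈ range (A * C), ∑ j ∈ range B, φ ((i * B + j) / B % C) =
      (B : ℝ) • φ (i % C) := by
    intro i _
    rw [Finset.sum_congr rfl (g := fun _ => φ (i % C)), Finset.sum_const, Finset.card_range,
      Nat.cast_smul_eq_nsmul]
    intro j hj
    rw [Finset.mem_range] at hj
    have : (i * B + j) / B = i := by
      rw [mul_comm, Nat.mul_add_div hB, Nat.div_eq_of_lt hj, add_zero]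
    rw [this]
  rw [Finset.sum_congr rfl h1, ← Finset.smul_sum, sum_mul]
  have h2 : ∀ i ∈ range A, ∑ j ∈ range C, φ ((i * C + j) % C) = ∑ j ∈ range C, φ j := by
    intro i _
    refine Finset.sum_congr rfl fun j hj => ?_
    rw [Finset.mem_range] at hj
    rw [mul_comm, Nat.mul_add_mod, Nat.mod_eq_of_lt hj]
  rw [Finset.sum_congr rfl h2, Finset.sum_const, Finset.card_range, ← Nat.cast_smul_eq_nsmul ℝ,
    smul_smul, mul_comm]

theorem sum_split (s : ℕ → ℕ) (n m : ℕ) (hm : m < n) :
    ∑ q ∈ range n, s q = ∑ q ∈ range m, s q + s m + ∑ q ∈ Ico (m + 1) n, s q := by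
  rw [← Finset.sum_range_succ, Finset.sum_range_add_sum_Ico _ hm]

theorem ixl : IxlStmt := by
  intro s n m hm
  refine ⟨fun l => Nat.mod_lt _ (by positivity), ?_⟩
  intro V _ _ φ
  unfold ix
  have h := sum_coord (2 ^ (∑ q ∈ range m, s q)) (2 ^ s m) (2 ^ (∑ q ∈ Ico (m + 1) n, s q))
    (by positivity) φ
  rw [← pow_add, ← pow_add, ← sum_split s n m hm] at h
  rw [h]
  congr 1
  rw [sum_split s n m hm, pow_add, pow_add]
  have : (2 : ℝ) ^ s m ≠ 0 := by positivity
  push_cast
  field_simp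

end Pool.Agent.NA.H87
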