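import Pool.Agent.Helper87_NAL.Blk

/-! NA, row QAC: averages of a function of a coordinate (helper87). -/

set_option autoImplicit false

open Finset

noncomputable section

namespace Pool.Agent.NA.H87

theorem qac : QacStmt := by
  intro V _ _ s n i D hD hi
  set k := ∑ q ∈ range n, s q with hk
  set κ := Nat.log 2 (i + 1) with hκ
  have hκk : κ ≤ k := log_le hi
  -- the coordinate which is cut
  let m := Nat.findGreatest (fun m => ∑ q ∈ range m, s q ≤ κ) n
  have hm : ∑ q ∈ range m, s q ≤ κ :=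
    Nat.findGreatest_spec (P := fun m => ∑ q ∈ range m, s q ≤ κ) (Nat.zero_le n) (by simp)
  have hmn : m ≤ n := Nat.findGreatest_le n
  have hm' : ∀ q, m < q → q ≤ n → κ < ∑ q' ∈ range q, s q' := by
    intro q h1 h2
    have := Nat.findGreatest_is_greatest h1 h2
    exact not_le.1 this
  refine ⟨m, hmn, ?_⟩
  intro l hl
  have hlk := lam_le (k := k) (i := i) (l := l) hi
  have hle := le_lam k i l
  have hle' := lam_le' k i l
  rw [← hκ] at hle hle'
  constructor
  · intro q hq
    rw [Qv_eq hl]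
    refine Av_const _ _ _ _ _ fun t ht => ?_
    have h1 : ∑ q' ∈ range (q + 1), s q' ≤ κ :=
      (Finset.sum_le_sum_of_subset (Finset.range_mono hq)).trans hm
    have h2 := sum_split s n q (hq.trans_le hmn)
    rw [← hk] at h2
    rw [Finset.sum_range_succ] at h1
    have h4 : ∑ q' ∈ Ico (q + 1) n, s q' ≥ k - lam k i l := by omega
    have h5 : ix s n q (l / 2 ^ (k - lam k i l) * 2 ^ (k - lam k i l) + t) = ix s n q l := by
      unfold ix
      rw [div_blk h4 ht]
    change D q (ix s n q _) = D q (ix s n q l)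
    rw [h5]
  · intro q hq hqn
    rw [Qv_eq hl]
    refine Av_zero _ _ _ _ ?_
    have h1 := hm' q hq hqn.le
    have h2 := sum_split s n q hqn
    rw [← hk] at h2
    set B := ∑ q' ∈ Ico (q + 1) n, s q' with hB
    have h4 : s q + B ≤ k - lam k i l := by omega
    obtain ⟨A, hA⟩ := Nat.exists_eq_add_of_le h4
    have h6 : (2 : ℕ) ^ (k - lam k i l) = 2 ^ A * 2 ^ s q * 2 ^ B := by
      rw [hA]; ring
    have h7 : ∀ t, ix s n q (l / 2 ^ (k - lam k i l) * 2 ^ (k - lam k i l) + t) =
        t / 2 ^ B % 2 ^ s q := by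
      intro t
      unfold ix
      rw [← hB]
      have h8 : l / 2 ^ (k - lam k i l) * 2 ^ (k - lam k i l) + t =
          2 ^ B * (2 ^ s q * (l / 2 ^ (k - lam k i l) * 2 ^ A)) + t := by
        nth_rewrite 2 [h6]
        ring
      rw [h8, Nat.mul_add_div (by positivity), Nat.mul_add_mod]
    have h9 : ∑ t ∈ range (2 ^ (k - lam k i l)),
        D q (ix s n q (l / 2 ^ (k - lam k i l) * 2 ^ (k - lam k i l) + t)) =
        ∑ t ∈ range (2 ^ A * 2 ^ s q * 2 ^ B), D q (t / 2 ^ B % 2 ^ s q) := by
      rw [← h6]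
      exact Finset.sum_congr rfl fun t _ => by rw [h7]
    change ∑ t ∈ range (2 ^ (k - lam k i l)),
        D q (ix s n q (l / 2 ^ (k - lam k i l) * 2 ^ (k - lam k i l) + t)) = 0
    rw [h9, sum_coord _ _ _ (by positivity) (fun j => D q j), hD q hqn, smul_zero]

end Pool.Agent.NA.H87
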