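import Pool.Agent.Helper87_NAL.IXL

/-! NA: averages over the blocks of the partitions `blk` (helper87; used for HAA and QAC). -/

set_option autoImplicit false

open Finset

noncomputable section

namespace Pool.Agent.NA.H87

section

variable {V : Type} [AddCommGroup V] [Module ℝ V]

/-- the average over the dyadic interval of the level `κ` which contains `l` -/
def Av (k κ : ℕ) (φ : ℕ → V) (l : ℕ) : V :=
  ((2 : ℝ) ^ (k - κ))⁻¹ • ∑ t ∈ range (2 ^ (k - κ)), φ (l / 2 ^ (k - κ) * 2 ^ (k - κ) + t)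

/-- the level of the block of `l` in the `i`-th partition -/
def lam (k i l : ℕ) : ℕ :=
  if l / 2 ^ (k - Nat.log 2 (i + 1)) < i + 1 - 2 ^ Nat.log 2 (i + 1) then
    Nat.log 2 (i + 1) + 1 else Nat.log 2 (i + 1)

theorem log_le {k i : ℕ} (hi : i ≤ 2 ^ k - 1) : Nat.log 2 (i + 1) ≤ k := by
  have h0 : 0 < 2 ^ k := by positivity
  have h1 : i + 1 ≤ 2 ^ k := by omega
  calc Nat.log 2 (i + 1) ≤ Nat.log 2 (2 ^ k) := Nat.log_mono_right h1
    _ = k := Nat.log_pow (by norm_num) k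

theorem pow_log_le (i : ℕ) : 2 ^ Nat.log 2 (i + 1) ≤ i + 1 :=
  Nat.pow_log_le_self 2 (by omega)

theorem lt_pow_log (i : ℕ) : i + 1 < 2 ^ (Nat.log 2 (i + 1) + 1) :=
  Nat.lt_pow_succ_log_self (by norm_num) _

theorem lam_le {k i l : ℕ} (hi : i ≤ 2 ^ k - 1) : lam k i l ≤ k := by
  have h := log_le hi
  have h0 : 0 < 2 ^ k := by positivity
  unfold lam
  split_ifs with h1
  · rcases Nat.lt_or_ge (Nat.log 2 (i + 1)) k with h2 | h2
    · omega
    · have h3 : Nat.log 2 (i + 1) = k := le_antisymm h h2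
      rw [h3] at h1
      have h4 : i + 1 - 2 ^ k = 0 := by omega
      rw [h4] at h1
      exact absurd h1 (Nat.not_lt_zero _)
  · exact h

theorem le_lam (k i l : ℕ) : Nat.log 2 (i + 1) ≤ lam k i l := by
  unfold lam; split_ifs <;> omega

theorem lam_le' (k i l : ℕ) : lam k i l ≤ Nat.log 2 (i + 1) + 1 := by
  unfold lam; split_ifs <;> omega

theorem blk_eq (k i l : ℕ) : blk k i l =
    (range (2 ^ k)).filter (fun l' => l' / 2 ^ (k - lam k i l) = l / 2 ^ (k - lam k i l)) := by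
  unfold blk lam
  simp only
  split_ifs with h
  · rw [Nat.sub_sub]
  · rfl

/-- the block as an interval -/
theorem filter_eq (k p l : ℕ) (hp : p ≤ k) (hl : l < 2 ^ k) :
    (range (2 ^ k)).filter (fun l' => l' / 2 ^ p = l / 2 ^ p) =
      (range (2 ^ p)).map ⟨fun t => l / 2 ^ p * 2 ^ p + t, fun a b h => by simpa using h⟩ := by
  have hpos : 0 < 2 ^ p := by positivity
  ext x
  simp only [mem_filter, mem_range, mem_map]
  constructor
  · rintro ⟨hx, hx2⟩
    refine ⟨x % 2 ^ p, Nat.mod_lt _ hpos, ?_⟩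
    rw [← hx2, mul_comm]
    exact Nat.div_add_mod x (2 ^ p)
  · rintro ⟨t, ht, rfl⟩
    constructor
    · have h1 : l / 2 ^ p < 2 ^ (k - p) := by
        rw [Nat.div_lt_iff_lt_mul hpos, ← pow_add, Nat.sub_add_cancel hp]
        exact hl
      calc l / 2 ^ p * 2 ^ p + t < l / 2 ^ p * 2 ^ p + 2 ^ p := by omega
        _ = (l / 2 ^ p + 1) * 2 ^ p := by ring
        _ ≤ 2 ^ (k - p) * 2 ^ p := Nat.mul_le_mul_right _ h1
        _ = 2 ^ k := by rw [← pow_add, Nat.sub_add_cancel hp]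
    · change (l / 2 ^ p * 2 ^ p + t) / 2 ^ p = l / 2 ^ p
      rw [mul_comm, Nat.mul_add_div hpos, Nat.div_eq_of_lt ht, add_zero]

theorem Qv_eq {k i l : ℕ} (hl : l < 2 ^ k) (φ : ℕ → V) :
    Qv k i φ l = Av k (lam k i l) φ l := by
  unfold Qv Av
  rw [blk_eq, filter_eq k (k - lam k i l) l (Nat.sub_le _ _) hl, card_map, card_range, sum_map]
  push_cast
  rfl

/-- the quotient of a point of the block -/
theorem div_blk {p p' l t : ℕ} (hp : p ≤ p') (ht : t < 2 ^ p) :
    (l / 2 ^ p * 2 ^ p + t) / 2 ^ p' = l / 2 ^ p' := by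
  have hpos : 0 < 2 ^ p := by positivity
  obtain ⟨d, rfl⟩ := Nat.exists_eq_add_of_le hp
  rw [pow_add, ← Nat.div_div_eq_div_mul, ← Nat.div_div_eq_div_mul, mul_comm,
    Nat.mul_add_div hpos, Nat.div_eq_of_lt ht, add_zero]

/-- the average of a function which is constant on the block -/
theorem Av_const (k κ l : ℕ) (φ : ℕ → V) (c : V)
    (h : ∀ t < 2 ^ (k - κ), φ (l / 2 ^ (k - κ) * 2 ^ (k - κ) + t) = c) : Av k κ φ l = c := by
  unfold Av
  rw [Finset.sum_congr rfl (g := fun _ => c) (fun t ht => h t (mem_range.1 ht)), sum_const,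
    card_range, ← Nat.cast_smul_eq_nsmul ℝ, smul_smul]
  push_cast
  rw [inv_mul_cancel₀ (by positivity), one_smul]

theorem Av_zero (k κ l : ℕ) (φ : ℕ → V)
    (h : ∑ t ∈ range (2 ^ (k - κ)), φ (l / 2 ^ (k - κ) * 2 ^ (k - κ) + t) = 0) :
    Av k κ φ l = 0 := by
  unfold Av
  rw [h, smul_zero]

end

end Pool.Agent.NA.H87
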